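import Pool.Agent.Helper45.T5.RegT5a
import Pool.Agent.Helper39.T5.InRep

/-!
# T5a, line N6: the windows `Bw` are regular
-/

set_option autoImplicit false

namespace Pool.Agent.Helper45.T5

open Finset Pool.Agent.Helper27.T5 Pool.Agent.Helper11.T5
open Pool.Agent.Helper5.ET (Nj era)
open Pool.Agent.Helper22.SL (PrG PrG_mono)
open Pool.Agent.Helper57.T5 (LL)
open Pool.Agent.Helper39.T5 (keysD)

theorem isWin_of_Bw {m k l s b : ℕ} {w : Key → ℕ} (hb : 10 * m ≤ la (era l)) (hk : k + 1 < m)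
    (hs : s ≤ k) (h : b ∈ Bw m k l s w) : IsWin m k l s w b := by
  unfold Bw at h
  rw [mem_image] at h
  obtain ⟨u, hu, rfl⟩ := h
  have h1 := dvd_Zw hb hk hs hu
  obtain ⟨y, hy, v, hv, he⟩ := mem_Zw.1 hu
  exact ⟨y, hy, v, hv, by rw [Nat.mul_div_cancel' h1, he]⟩

/-- **N6: the windows below the static level `h` are regular**, `K` contains the deep keys -/
theorem reg_Bw (m k : ℕ) (hk : k + 2 ≤ m) : ∃ j0 : ℕ, ∀ l, j0 ≤ era l → used m l → ∀ h < k,
    ∀ K : Finset Key, keysD m k l h ⊆ K →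
    PrG (Mk m) K (fun w => ¬ RegSet (Bw m k l h w) (QQ m (era l) h)
      ((10 ^ 6) ^ (2 * W m (era l) (h + 2))) (Real.sqrt (QQ m (era l) h)))
      (Real.exp (-(30 * (W m (era l) (h + 1) : ℝ)))) := by
  obtain ⟨j0, h0⟩ := reg_deep m k hk
  obtain ⟨j1, h1⟩ := exists_large m
  refine ⟨max j0 j1, fun l hl hu h hh K hK => ?_⟩
  have hb := h1 (era l) ((le_max_right _ _).trans hl)
  refine PrG_mono ?_ le_rfl (h0 l ((le_max_left _ _).trans hl) hu h hh K hK)
  intro r _ hn h2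
  exact hn (h2 _ fun b hb' => isWin_of_Bw hb (by omega) hh.le hb')

end Pool.Agent.Helper45.T5
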