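import Pool.Agent.Helper45.T5.Pass
import Pool.Agent.Helper41.T5.RegCode

/-!
# T5, block SL-R: regularity of the window sets

A window `b` of the levels below the level `r` has the form `S0 * m y + Q * z`: `m y` is the code of
the next level divided by the front, `Q` its modulus, `S0 = F / M`, and `z < Zmax` the window of the
deeper levels, which is treated crudely.
-/

set_option autoImplicit false

namespace Pool.Agent.Helper45.T5

open Finset Pool.Agent.Helper27.T4 Pool.Agent.Helper29.T4 Pool.Agent.Helper22.HW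
  Pool.Agent.Helper22.SL Pool.Agent.Helper41.T5

/-- `B` is regular for all arcs and all classes modulo numbers coprime to `Q`. -/
def RegSet (B : Finset ℕ) (Q : ℕ) (R w : ℝ) : Prop :=
  ∀ g, 0 < g → g.Coprime Q → ∀ a L c : ℕ,
    ((B.filter fun b => a ≤ b ∧ b < a + L ∧ b % g = c % g).card : ℝ) ≤ R * (1 + L / (g * w))

theorem RegSet.mono {B B' : Finset ℕ} {Q : ℕ} {R w : ℝ} (h : RegSet B Q R w) (hB : B' ⊆ B) :
    RegSet B' Q R w := fun g hg hgQ a L c =>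
  (Nat.cast_le.2 (Finset.card_le_card (Finset.filter_subset_filter _ hB))).trans
    (h g hg hgQ a L c)

/-- the arc bound -/
theorem RegSet.arc {B : Finset ℕ} {Q : ℕ} {R w : ℝ} (h : RegSet B Q R w) (a L : ℕ) :
    ((B.filter fun b => a ≤ b ∧ b < a + L).card : ℝ) ≤ R * (1 + L / w) := by
  have h1 := h 1 one_pos (Nat.coprime_one_left _) a L 0
  rw [Nat.cast_one, one_mul] at h1
  refine le_trans (le_of_eq ?_) h1
  congr 2
  refine Finset.filter_congr fun b _ => ?_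
  simp [Nat.mod_one]

theorem regSet_of {β : Type*} [DecidableEq β] {Y : Finset β} {m : β → ℕ} {Q S0 Zm : ℕ} {ρ : ℝ}
    (hρ : 0 ≤ ρ) (hQ : 0 < Q) (hS0 : 0 < S0) (h : RegOK Y m Q ρ) {B : Finset ℕ}
    (hB : ∀ b ∈ B, ∃ y ∈ Y, ∃ z < Zm, b = S0 * m y + Q * z) :
    RegSet B Q (2 * Zm * ρ) (Real.sqrt Q) := by
  classical
  intro g hg hgQ a L c
  have h1 := pass Y m (Q := Q) (S := S0) (g := g) hg hS0 hρ (fun h' hh' a' A' c' =>
    h h' (Nat.pos_of_dvd_of_pos hh' hg) (Nat.Coprime.coprime_dvd_left hh' hgQ) a' A' c')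
    (range Zm) a L c
  have h2 : (B.filter fun b => a ≤ b ∧ b < a + L ∧ b % g = c % g) ⊆
      ((Y ×ˢ range Zm).filter fun q => a ≤ S0 * m q.1 + Q * q.2 ∧ S0 * m q.1 + Q * q.2 < a + L ∧
        (S0 * m q.1 + Q * q.2) % g = c % g).image fun q => S0 * m q.1 + Q * q.2 := by
    intro b hb
    rw [Finset.mem_filter] at hb
    obtain ⟨hb, hc⟩ := hb
    obtain ⟨y, hy, z, hz, rfl⟩ := hB b hb
    rw [Finset.mem_image]
    exact ⟨(y, z), Finset.mem_filter.2 ⟨Finset.mem_product.2 ⟨hy, Finset.mem_range.2 hz⟩, hc⟩, rfl⟩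
  have h3 : ((B.filter fun b => a ≤ b ∧ b < a + L ∧ b % g = c % g).card : ℝ) ≤ _ :=
    (Nat.cast_le.2 ((Finset.card_le_card h2).trans Finset.card_image_le)).trans h1
  refine h3.trans ?_
  rw [Finset.card_range]
  have hQ1 : (1 : ℝ) ≤ Q := by exact_mod_cast hQ
  have hs1 : (1 : ℝ) ≤ Real.sqrt Q := by
    rw [show (1 : ℝ) = Real.sqrt 1 by simp]
    exact Real.sqrt_le_sqrt hQ1
  have hgR : (0 : ℝ) < g := by exact_mod_cast hg
  have hL : (0 : ℝ) ≤ L / (g * Real.sqrt Q) := by positivity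
  have e1 : ((L : ℝ) / g + 1) / Real.sqrt Q = L / (g * Real.sqrt Q) + 1 / Real.sqrt Q := by
    field_simp
  have e2 : 1 / Real.sqrt (Q : ℝ) ≤ 1 := by
    rw [div_le_one (by linarith)]
    exact hs1
  rw [e1]
  have e3 : ρ * (1 + (L / (g * Real.sqrt Q) + 1 / Real.sqrt Q)) ≤
      2 * ρ * (1 + L / (g * Real.sqrt Q)) := by nlinarith
  have e4 : (0 : ℝ) ≤ Zm := Nat.cast_nonneg _
  calc (Zm : ℝ) * (ρ * (1 + (L / (g * Real.sqrt Q) + 1 / Real.sqrt Q)))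
      ≤ Zm * (2 * ρ * (1 + L / (g * Real.sqrt Q))) := mul_le_mul_of_nonneg_left e3 e4
    _ = _ := by ring

/-- the form of a window -/
theorem win_form {p : Fin 3 → ℕ} {κ : Type*} (hp : ∀ i, (p i).Prime)
    (hinj : Function.Injective p) (S : Side p κ) (w : κ → ℕ) {N S0 b z : ℕ} {y : Fin 3 → ℕ}
    (hN : 0 < N) (hF : S.F = N * S0) (h : N * b = S.cd hp hinj w y + N * (NN p S.e * z)) :
    b = S0 * (S.cd hp hinj w y / S.F) + NN p S.e * z := by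
  have h1 : S.F ∣ S.cd hp hinj w y := dvd_fc hp hinj S.F S.e _
  have h2 : S.F * (S.cd hp hinj w y / S.F) = S.cd hp hinj w y := Nat.mul_div_cancel' h1
  refine Nat.eq_of_mul_eq_mul_left hN ?_
  rw [h, mul_add, ← mul_assoc N S0, ← hF, h2]

section

variable {κ : Type*} [DecidableEq κ] {p : Fin 3 → ℕ} {Mk : κ → ℕ}

/-- REGULARITY OF THE WINDOWS -/
theorem reg_win (hp : ∀ i, (p i).Prime) (hp2 : ∀ i, p i ≠ 2) (hinj : Function.Injective p)
    (S : Side p κ) (hS : S.Ok rk3 Mk) (U : Fin 3 → Finset ℕ) (K : Finset κ)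
    (hU : ∀ i, Pool.Agent.Helper73.T5.SFam (p i) (S.e i) (U i))
    (hK : ∀ i, ∀ y ∈ Fintype.piFinset U, S.key i y ∈ K)
    (Y : Finset (Fin 3 → ℕ)) (hY : Y ⊆ Fintype.piFinset U) (E0 : ℕ) (he : 1 ≤ E0)
    (sF : p 0 ^ S.e 0 ≤ E0 * (p 1 ^ S.e 1 * p 2 ^ S.e 2))
    (s1 : p 1 ^ S.e 1 ≤ E0 * (p 0 ^ S.e 0 * p 2 ^ S.e 2))
    (s2 : p 2 ^ S.e 2 ≤ E0 * (p 0 ^ S.e 0 * p 1 ^ S.e 1)) {T : ℝ} (hT : 1 ≤ T)
    {S0 Zm : ℕ} (hS0 : 0 < S0) (B : (κ → ℕ) → Finset ℕ)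
    (hB : ∀ w, ∀ b ∈ B w, ∃ y ∈ Y, ∃ z < Zm,
      b = S0 * (S.cd hp hinj w y / S.F) + NN p S.e * z) :
    PrG Mk K (fun w => ¬ RegSet (B w) (NN p S.e)
      (2 * Zm * (68 * (T * ((p 1 : ℝ) + p 2) ^ 2 * E0 ^ 2))) (Real.sqrt (NN p S.e)))
      (2 * ((NN p S.e : ℝ) + 1) ^ 4 * Real.exp (-T)) := by
  refine PrG_mono ?_ le_rfl
    (reg_code hp hp2 hinj S hS U K hU hK Y hY E0 he sF s1 s2 hT)
  intro r _ hn hreg
  exact hn (regSet_of (by positivity) (NN_pos hp _) hS0 hreg (hB _))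

end

end Pool.Agent.Helper45.T5
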