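import Pool.Agent.Helper45.T5.RegNum

/-!
# T5a, block SL-R: regularity of the windows of the static levels
-/

set_option autoImplicit false

namespace Pool.Agent.Helper45.T5

open Finset Pool.Agent.Helper27.T4 Pool.Agent.Helper27.T5
open Pool.Agent.Helper5.ET (pr Nj era mask bb)
open Pool.Agent.Helper22.SL Pool.Agent.Helper30.T5 Pool.Agent.Helper57.T5
open Pool.Agent.Helper39.T5 Pool.Agent.Helper50.T5 Pool.Agent.Helper11.T5 Pool.Agent.Helper41.T5
open Pool.Agent.Helper22.HW (Side)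

theorem RegSet.le {B : Finset ℕ} {Q : ℕ} {R R' w : ℝ} (h : RegSet B Q R w) (hR : R ≤ R')
    (hw : 0 ≤ w) : RegSet B Q R' w := fun g hg hgQ a L c =>
  (h g hg hgQ a L c).trans (mul_le_mul_of_nonneg_right hR (by positivity))

theorem RegSet.width {B : Finset ℕ} {Q : ℕ} {R w w' : ℝ} (h : RegSet B Q R w) (hR : 0 ≤ R)
    (hw : 0 < w') (hww : w' ≤ w) : RegSet B Q R w' := fun g hg hgQ a L c => by
  refine (h g hg hgQ a L c).trans (mul_le_mul_of_nonneg_left ?_ hR)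
  have hgR : (0 : ℝ) < g := by exact_mod_cast hg
  gcongr

theorem ps_ne_two (t : ℕ) (i : Fin 3) : ps t i ≠ 2 := by
  have := million_lt_sp (3 * (t + 2) + i)
  unfold ps
  omega

/-- the numbers -/
theorem reg_fail {Q W : ℕ} (hQ : Q ≤ (10 ^ 6) ^ W) (hW : 1 ≤ W) :
    2 * ((Q : ℝ) + 1) ^ 4 * Real.exp (-(100 * (W : ℝ))) ≤ Real.exp (-(30 * (W : ℝ))) := by
  have hWr : (1 : ℝ) ≤ W := by exact_mod_cast hW
  have h0 : ((10 : ℝ) ^ 6) ^ W ≤ Real.exp (14 * W) := by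
    rw [← Real.log_le_iff_le_exp (by positivity), Real.log_pow]
    have := log_million_lt
    nlinarith
  have h1 : (Q : ℝ) ≤ Real.exp (14 * W) := by
    refine le_trans ?_ h0
    exact_mod_cast hQ
  have h2 : (2 : ℝ) ≤ Real.exp W := by
    have := Real.add_one_le_exp (W : ℝ)
    linarith
  have h3 : (1 : ℝ) ≤ Real.exp (14 * W) := by
    apply Real.one_le_exp
    positivity
  have h4 : (Q : ℝ) + 1 ≤ Real.exp (15 * W) := by
    have e : Real.exp (15 * (W : ℝ)) = Real.exp W * Real.exp (14 * W) := by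
      rw [← Real.exp_add]
      congr 1
      ring
    rw [e]
    nlinarith
  have h5 : ((Q : ℝ) + 1) ^ 4 ≤ Real.exp (60 * W) := by
    have e : Real.exp (60 * (W : ℝ)) = Real.exp (15 * W) ^ 4 := by
      rw [← Real.exp_nat_mul]
      congr 1
      push_cast
      ring
    rw [e]
    gcongr
  calc 2 * ((Q : ℝ) + 1) ^ 4 * Real.exp (-(100 * (W : ℝ)))
      ≤ Real.exp W * Real.exp (60 * W) * Real.exp (-(100 * (W : ℝ))) := by gcongr
    _ = Real.exp (-(39 * (W : ℝ))) := by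
        rw [← Real.exp_add, ← Real.exp_add]
        congr 1
        ring
    _ ≤ _ := by
        apply Real.exp_le_exp.2
        linarith

theorem reg_size {C n W Zm : ℕ} {P : ℝ} (hP : 0 ≤ P) (hZ : Zm ≤ C * (10 ^ 6) ^ n)
    (hW : W ≤ n ^ 2) (hn : 13600 * C * P ≤ n) :
    2 * (Zm : ℝ) * (68 * ((100 * (W : ℝ)) * P * ((1 : ℕ) : ℝ) ^ 2)) ≤ (10 ^ 6) ^ (2 * n) := by
  have h1 : (Zm : ℝ) ≤ C * (10 ^ 6) ^ n := by exact_mod_cast hZ
  have h2 : (W : ℝ) ≤ (n : ℝ) ^ 2 := by exact_mod_cast hW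
  have h3 : (n : ℝ) ≤ 2 ^ n := by exact_mod_cast (Nat.lt_two_pow_self (n := n)).le
  have h4 : (n : ℝ) ^ 3 ≤ (10 ^ 6) ^ n := by
    calc (n : ℝ) ^ 3 ≤ (2 ^ n) ^ 3 := by gcongr
      _ = 8 ^ n := by rw [← pow_mul, mul_comm, pow_mul]; norm_num
      _ ≤ _ := by gcongr; norm_num
  calc 2 * (Zm : ℝ) * (68 * ((100 * (W : ℝ)) * P * ((1 : ℕ) : ℝ) ^ 2))
      = 13600 * Zm * W * P := by push_cast; ring
    _ ≤ 13600 * (C * (10 ^ 6) ^ n) * (n : ℝ) ^ 2 * P := by gcongr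
    _ = (13600 * C * P) * (n : ℝ) ^ 2 * (10 ^ 6) ^ n := by ring
    _ ≤ (n : ℝ) * (n : ℝ) ^ 2 * (10 ^ 6) ^ n := by gcongr
    _ = (n : ℝ) ^ 3 * (10 ^ 6) ^ n := by ring
    _ ≤ (10 ^ 6) ^ n * (10 ^ 6) ^ n := by gcongr
    _ = _ := by rw [← pow_add]; congr 1; ring

/-- **THE WINDOWS ARE REGULAR** (T5a): one event for each state `l` and each level `h`, all arcs,
all classes, all sets of windows; `K` contains the keys of the level `h` -/
theorem reg_gen (m k : ℕ) (hk : k + 2 ≤ m) : ∃ j0 : ℕ, ∀ l, j0 ≤ era l → used m l → ∀ h < k,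
    ∀ K : Finset Key, (∀ i, ∀ y ∈ Ys m (era l) h, (Ss m l h).key i y ∈ K) →
    PrG (Mk m) K (fun w => ¬ ∀ B : Finset ℕ, (∀ b ∈ B, IsWin m k l h w b) →
      RegSet B (QQ m (era l) h) ((10 ^ 6) ^ (2 * W m (era l) (h + 2)))
        (Real.sqrt (QQ m (era l) h)))
      (Real.exp (-(30 * (W m (era l) (h + 1) : ℝ)))) := by
  obtain ⟨j0, h0⟩ := exists_double m k hk
  obtain ⟨j1, h1⟩ := exists_balanced m k hk
  obtain ⟨j2, C, hC, h2⟩ := exists_deep m k hk
  obtain ⟨j3, h3⟩ := exists_large m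
  set P : ℝ := ∑ t ∈ range k, ((ps t 1 : ℝ) + ps t 2) ^ 2 with hP
  obtain ⟨j4, h4⟩ := exists_log_pow_le_W (m := m) (by omega) (13600 * C * P) 0
  refine ⟨max j0 (max j1 (max j2 (max j3 j4))), fun l hl hu h hh K hK => ?_⟩
  simp only [max_le_iff] at hl
  obtain ⟨l0, l1, l2, l3, l4⟩ := hl
  have hb := h3 (era l) l3
  have hr := rt_ge hb (by omega)
  obtain ⟨b0, b1, b2⟩ := h1 (era l) l1 h hh
  have hW1 : 1 ≤ W m (era l) (h + 1) := Nat.one_le_iff_ne_zero.2 (Pool.Agent.Helper30.T5.W_pos _ _ _).ne'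
  have hWr : (1 : ℝ) ≤ W m (era l) (h + 1) := by exact_mod_cast hW1
  have hreg := reg_code (Mk := Mk m) (ps_prime h) (ps_ne_two h) (ps_inj h) (Ss m l h) (Ss_ok m l h)
    (Us m (era l) h) K (Us_sfam m (era l) h)
    hK (Ys m (era l) h) (Finset.Subset.refl _) 1 le_rfl
    (by rw [one_mul]; exact b0) (by rw [one_mul]; exact b1) (by rw [one_mul]; exact b2)
    (T := 100 * (W m (era l) (h + 1) : ℝ)) (by linarith)
  have hQ : NN (ps h) (Ss m l h).e ≤ (10 ^ 6) ^ W m (era l) (h + 1) := by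
    have e1 : NN (ps h) (Ss m l h).e = Qs m (era l) (h + 2) := rfl
    rw [e1]
    refine (Qs_le (by omega) (by omega)).trans ?_
    exact Nat.pow_le_pow_right (by norm_num) (Nat.sub_le _ _)
  refine PrG_mono ?_ (reg_fail hQ hW1) hreg
  intro r _ hn hr2
  refine hn fun B hB => ?_
  have hdb := h0 l l0
  have hF : ∀ t ≤ k, Nj l ∣ FF m l t := fun t ht => Nj_dvd_FF hb hk ht
  have hform := fun b hb' => isWin_form hh hF hdb (hB b hb')
  obtain ⟨c, hc⟩ := hF (h + 1) (by omega)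
  have hc0 : 0 < FF m l (h + 1) / Nj l := by
    have := FF_pos m l (h + 1)
    rw [hc] at this ⊢
    rw [Nat.mul_div_cancel_left _ (Nj_pos1 l)]
    exact Nat.pos_of_mul_pos_left this |> fun _ => by
      rcases Nat.eq_zero_or_pos c with h5 | h5
      · rw [h5, mul_zero] at this
        omega
      · exact h5
  have hset := regSet_of (by positivity) (NN_pos (ps_prime h) _) hc0 hr2 hform
  have hPh : ((ps h 1 : ℝ) + ps h 2) ^ 2 ≤ P :=
    Finset.single_le_sum (f := fun t => ((ps t 1 : ℝ) + ps t 2) ^ 2) (fun _ _ => by positivity)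
      (mem_range.2 hh)
  have hn4 := h4 (era l) l4 (h + 2) (by omega)
  rw [pow_zero, mul_one] at hn4
  have hrt : rt m (era l) ≤ W m (era l) (h + 2) := Pool.Agent.Helper30.T5.rt_le_W (by omega)
  have hWn : W m (era l) (h + 1) ≤ W m (era l) (h + 2) ^ 2 := by
    have e1 : W m (era l) (h + 1) = rt m (era l) * W m (era l) (h + 1 + 1) :=
      Pool.Agent.Helper30.T5.W_succ (show h + 1 + 1 ≤ m by omega)
    rw [e1, sq]
    exact Nat.mul_le_mul_right _ hrt
  refine RegSet.le hset ?_ (Real.sqrt_nonneg _)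
  refine reg_size (by positivity) (h2 l l2 hu h hh) hWn ?_
  refine le_trans ?_ hn4
  gcongr

/-- the same, `K` contains all keys of the state -/
theorem reg_inst (m k : ℕ) (hk : k + 2 ≤ m) : ∃ j0 : ℕ, ∀ l, j0 ≤ era l → used m l → ∀ h < k,
    ∀ K : Finset Key, keysOf m k l ⊆ K →
    PrG (Mk m) K (fun w => ¬ ∀ B : Finset ℕ, (∀ b ∈ B, IsWin m k l h w b) →
      RegSet B (QQ m (era l) h) ((10 ^ 6) ^ (2 * W m (era l) (h + 2)))
        (Real.sqrt (QQ m (era l) h)))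
      (Real.exp (-(30 * (W m (era l) (h + 1) : ℝ)))) := by
  obtain ⟨j0, h0⟩ := reg_gen m k hk
  exact ⟨j0, fun l hl hu h hh K hK => h0 l hl hu h hh K fun i y hy => hK (key_mem hh i hy)⟩

/-- the same, `K` contains the keys of the static levels `≥ h` of the state -/
theorem reg_deep (m k : ℕ) (hk : k + 2 ≤ m) : ∃ j0 : ℕ, ∀ l, j0 ≤ era l → used m l → ∀ h < k,
    ∀ K : Finset Key, (keysOf m k l).filter (fun q => q.2.1 = 0 ∨ h + 2 ≤ q.2.1) ⊆ K →
    PrG (Mk m) K (fun w => ¬ ∀ B : Finset ℕ, (∀ b ∈ B, IsWin m k l h w b) →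
      RegSet B (QQ m (era l) h) ((10 ^ 6) ^ (2 * W m (era l) (h + 2)))
        (Real.sqrt (QQ m (era l) h)))
      (Real.exp (-(30 * (W m (era l) (h + 1) : ℝ)))) := by
  obtain ⟨j0, h0⟩ := reg_gen m k hk
  refine ⟨j0, fun l hl hu h hh K hK => h0 l hl hu h hh K fun i y hy => hK ?_⟩
  rw [mem_filter]
  exact ⟨key_mem hh i hy, Or.inr le_rfl⟩

end Pool.Agent.Helper45.T5
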