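import Pool.Agent.Helper45.T5.RegBw
import Pool.Agent.Helper75.T5.RegVE

/-!
# T5a, line NE5: regularity of all windows
-/

set_option autoImplicit false

namespace Pool.Agent.Helper45.T5

open Finset Pool.Agent.Helper27.T5 Pool.Agent.Helper11.T5 Pool.Agent.Helper63.T5
open Pool.Agent.Helper5.ET (Nj era pr)
open Pool.Agent.Helper22.SL (PrG PrG_mono)
open Pool.Agent.Helper57.T5 (LL)
open Pool.Agent.Helper39.T5 (keysD keysD_sub)
open Pool.Agent.Helper22.NEAR (RegE)

theorem regE_of_regSet_lt (m k : ℕ) (hk : k + 2 ≤ m) : ∃ j0 : ℕ, ∀ l, j0 ≤ era l → ∀ s < k,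
    ∀ w : Key → ℕ, RegSet (Bw m k l s w) (QQ m (era l) s)
      ((10 ^ 6) ^ (2 * W m (era l) (s + 2))) (Real.sqrt (QQ m (era l) s)) →
    RegE m k (era l) l s w := by
  obtain ⟨j0, h0⟩ := Pool.Agent.Helper30.T5.exists_mul_W_le (m := m) (by omega) 280000
  obtain ⟨j1, h1⟩ := Pool.Agent.Helper30.T5.exists_log_pow_le_W (m := m) (by omega)
    (10000 * ∑ s ∈ range k, Real.log (Pool.Agent.Helper30.T5.spp (s + 2))) 0
  obtain ⟨j2, h2⟩ := exists_large m
  refine ⟨max j0 (max j1 j2), fun l hl s hs w hreg => ?_⟩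
  simp only [max_le_iff] at hl
  have hb := h2 (era l) hl.2.2
  have hr := rt_ge hb (by omega)
  have hW := h0 (era l) hl.1 (s + 1) (by omega)
  have e1 : s + 1 + 1 = s + 2 := rfl
  rw [e1] at hW
  have hWr : 280000 * (W m (era l) (s + 2) : ℝ) ≤ W m (era l) (s + 1) := by exact_mod_cast hW
  have hS := h1 (era l) hl.2.1 (s + 1) (by omega)
  rw [pow_zero, mul_one] at hS
  have hspp : Real.log (Pool.Agent.Helper30.T5.spp (s + 2)) ≤
      ∑ s ∈ range k, Real.log (Pool.Agent.Helper30.T5.spp (s + 2)) :=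
    Finset.single_le_sum (f := fun s => Real.log (Pool.Agent.Helper30.T5.spp (s + 2)))
      (fun i _ => Real.log_natCast_nonneg _) (mem_range.2 hs)
  have hlam1 := lam_gt
  have hlam2 := lam_lt
  have hlog := Pool.Agent.Helper30.T5.le_log_Qs (m := m) (j := era l) (i := s + 2) (by omega)
    (by omega)
  have e2 : s + 2 - 1 = s + 1 := rfl
  rw [e2] at hlog
  have hWW : W m (era l) (s + 2) ≤ W m (era l) (s + 1) := by omega
  rw [Nat.cast_sub hWW] at hlog
  refine ⟨QQ m (era l) s, fun n => ?_, ?_⟩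
  · refine Nat.Coprime.pow_left _ ?_
    exact Pool.Agent.Helper30.T5.coprime_pr_Qs _ _ _ _
  · have hQpos : (0 : ℝ) < QQ m (era l) s := by exact_mod_cast QQ_pos m (era l) s
    refine RegSet.width (RegSet.le hreg ?_ (Real.sqrt_nonneg _)) (Real.exp_pos _).le
      (Real.exp_pos _) ?_
    · rw [← Real.log_le_iff_le_exp (by positivity), Real.log_pow]
      have e3 : Real.log (10 ^ 6) = lam := rfl
      rw [e3]
      push_cast
      have h5 : (0 : ℝ) ≤ W m (era l) (s + 2) := Nat.cast_nonneg _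
      nlinarith
    · rw [Real.sqrt_eq_rpow, Real.rpow_def_of_pos hQpos]
      apply Real.exp_le_exp.2
      have e3 : Real.log (10 ^ 6) = lam := rfl
      rw [e3] at hlog
      have e4 : Real.log (QQ m (era l) s) = Real.log (Pool.Agent.Helper30.T5.Qs m (era l) (s + 2)) :=
        rfl
      rw [e4]
      have h5 : (0 : ℝ) ≤ W m (era l) (s + 2) := Nat.cast_nonneg _
      nlinarith

/-- **NE5, deep form**: `K` contains the keys of the levels `≥ s` and of the window -/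
theorem reg_all_deep (m k : ℕ) (hk : k + 2 ≤ m) : ∃ j0 : ℕ, ∀ j l s, j0 ≤ j → era l = j →
    used m l → s ≤ k → ∀ K, keysD m k l s ⊆ K →
    PrG (Mk m) K (fun w => ¬ RegE m k j l s w) (Real.exp (-(W m j (s + 1) : ℝ))) := by
  obtain ⟨j0, h0⟩ := reg_Bw m k hk
  obtain ⟨j1, h1⟩ := regE_of_regSet_lt m k hk
  obtain ⟨j2, h2⟩ := Pool.Agent.Helper75.T5.regE_V hk
  refine ⟨max j0 (max j1 j2), fun j l s hj he hu hs K hK => ?_⟩
  simp only [max_le_iff] at hj
  subst he
  rcases Nat.eq_or_lt_of_le hs with h | h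
  · subst h
    exact h2 l hu hj.2.2 K hK
  · refine PrG_mono (fun r _ hn h3 => hn (h1 l hj.2.1 s h _ h3)) ?_ (h0 l hj.1 hu s h K hK)
    apply Real.exp_le_exp.2
    have : (0 : ℝ) ≤ W m (era l) (s + 1) := Nat.cast_nonneg _
    linarith

/-- **NE5** -/
theorem reg_all (k : ℕ) : ∃ j0 : ℕ, ∀ j l s, j0 ≤ j → era l = j → used (k + 2) l → s ≤ k →
    ∀ K, keysOf (k + 2) k l ⊆ K →
    PrG (Mk (k + 2)) K (fun w => ¬ RegE (k + 2) k j l s w)
      (Real.exp (-(W (k + 2) j (s + 1) : ℝ))) := by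
  obtain ⟨j0, h0⟩ := reg_all_deep (k + 2) k le_rfl
  exact ⟨j0, fun j l s hj he hu hs K hK => h0 j l s hj he hu hs K
    ((keysD_sub _ _ _ _).trans hK)⟩

end Pool.Agent.Helper45.T5
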