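import Pool.Agent.Helper45.T5.RegInst

/-!
# T5a, block SL-R: the numbers for the regularity of the windows
-/

set_option autoImplicit false

namespace Pool.Agent.Helper45.T5

open Finset Pool.Agent.Helper27.T4 Pool.Agent.Helper27.T5
open Pool.Agent.Helper5.ET (pr Nj era mask bb)
open Pool.Agent.Helper22.SL Pool.Agent.Helper30.T5 Pool.Agent.Helper57.T5
open Pool.Agent.Helper39.T5 Pool.Agent.Helper50.T5 Pool.Agent.Helper11.T5 Pool.Agent.Helper41.T5
open Pool.Agent.Helper22.HW (Side)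

theorem Nj_dvd {y z : ℕ} (h : y ≤ z) : Nj y ∣ Nj z :=
  ⟨Nj z / Nj y, by rw [mul_comm, Pool.Agent.Helper30.ET.Nj_div_mul h]⟩

theorem Nj_dvd_FF {m k l t : ℕ} (hb : 10 * m ≤ la (era l)) (hk : k + 2 ≤ m) (ht : t ≤ k) :
    Nj l ∣ FF m l t := Nj_dvd (lt_ef hb (by omega)).le

/-- the fronts of the next level are much closer -/
theorem exists_double (m k : ℕ) (hk : k + 2 ≤ m) : ∃ j0 : ℕ, ∀ l, j0 ≤ era l → ∀ t < k,
    2 * (FF m l t * LL (QQ m (era l)) t) ≤ FF m l (t + 1) * LL (QQ m (era l)) (t + 1) := by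
  obtain ⟨j0, h0⟩ := exists_pr_pow_le_Qf m k hk
  obtain ⟨j1, h1⟩ := exists_large m
  refine ⟨max j0 j1, fun l hl t ht => ?_⟩
  have hl0 := le_trans (le_max_left _ _) hl
  have hl1 := le_trans (le_max_right _ _) hl
  have hb := h1 (era l) hl1
  set j := era l with hj
  have hr := rt_ge hb (by omega)
  have hW1 : 2 ^ 10 * W m j (t + 2) ≤ W m j (t + 1) := by
    have e1 : W m j (t + 1) = rt m j * W m j (t + 1 + 1) :=
      Pool.Agent.Helper30.T5.W_succ (show t + 1 + 1 ≤ m by omega)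
    rw [e1]
    exact Nat.mul_le_mul_right _ hr
  have hW2 : 2 ^ 10 ≤ W m j (t + 1) := W_ge hb (by omega)
  have hd := eight_mul_dg (m := m) (j := j) (i := t + 2) (by omega) (by omega) 0
  have hg : gw 0 = 3 := rfl
  rw [hg] at hd
  have e3 : t + 2 - 1 = t + 1 := by omega
  rw [e3] at hd
  have h64 : 64 * (ef m (t + 1) l - l) ≤ W m j (t + 1) := ef_sub_le hb (by omega)
  have h2 := h0 j hl0 (t + 2) (by omega) (by omega) 0 2 (ef m (t + 1) l - l + 1) (by omega)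
  -- `2 FF t ≤ FF (t+1) QQ t`
  have e4 : l ≤ ef m (t + 1) l := (lt_ef hb (by omega)).le
  have e5 : FF m l t ≤ Nj l * 1000037 ^ (ef m (t + 1) l - l) := by
    have := Pool.Agent.Helper30.ET.Nj_upper e4
    exact this
  have e6 : Nj l ≤ FF m l (t + 1) :=
    Nat.le_of_dvd (FF_pos _ _ _) (Nj_dvd_FF hb hk (by omega))
  have e7 : Qf m j (t + 2) 0 ≤ QQ m j t := by
    refine Nat.le_of_dvd (QQ_pos m j t) ?_
    exact Finset.dvd_prod_of_mem _ (mem_univ 0)
  have e8 : 2 * 1000037 ^ (ef m (t + 1) l - l) ≤ QQ m j t := by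
    refine le_trans ?_ (h2.trans e7)
    have : pr 2 = 1000037 := rfl
    rw [this, pow_succ, mul_comm]
    gcongr
    norm_num
  have e9 : 2 * FF m l t ≤ FF m l (t + 1) * QQ m j t := by
    calc 2 * FF m l t ≤ 2 * (Nj l * 1000037 ^ (ef m (t + 1) l - l)) := by gcongr
      _ = Nj l * (2 * 1000037 ^ (ef m (t + 1) l - l)) := by ring
      _ ≤ FF m l (t + 1) * QQ m j t := Nat.mul_le_mul e6 e8
  rw [LL_succ]
  calc 2 * (FF m l t * LL (QQ m j) t) = (2 * FF m l t) * LL (QQ m j) t := by ring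
    _ ≤ (FF m l (t + 1) * QQ m j t) * LL (QQ m j) t := by gcongr
    _ = _ := by ring

/-- every family is smaller than the product of the two others -/
theorem exists_balanced (m k : ℕ) (hk : k + 2 ≤ m) : ∃ j0 : ℕ, ∀ j ≥ j0, ∀ t < k,
    ps t 0 ^ es m j t 0 ≤ ps t 1 ^ es m j t 1 * ps t 2 ^ es m j t 2 ∧
    ps t 1 ^ es m j t 1 ≤ ps t 0 ^ es m j t 0 * ps t 2 ^ es m j t 2 ∧
    ps t 2 ^ es m j t 2 ≤ ps t 0 ^ es m j t 0 * ps t 1 ^ es m j t 1 := by
  obtain ⟨j0, h0⟩ := exists_million_pow_le_Qf m k hk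
  obtain ⟨j1, h1⟩ := exists_large m
  obtain ⟨j2, h2⟩ := exists_log_pow_le_W (m := m) (by omega) ((2 ^ 20 : ℕ) : ℝ) 0
  refine ⟨max j0 (max j1 j2), fun j hl t ht => ?_⟩
  simp only [ge_iff_le, max_le_iff] at hl
  have hb := h1 j hl.2.1
  have hr := rt_ge hb (by omega)
  have hW1 : 2 ^ 10 * W m j (t + 2) ≤ W m j (t + 1) := by
    have e1 : W m j (t + 1) = rt m j * W m j (t + 1 + 1) :=
      Pool.Agent.Helper30.T5.W_succ (show t + 1 + 1 ≤ m by omega)
    rw [e1]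
    exact Nat.mul_le_mul_right _ hr
  have hW2 : 2 ^ 20 ≤ W m j (t + 1) := by
    have := h2 j hl.2.2 (t + 1) (by omega)
    rw [pow_zero, mul_one] at this
    exact_mod_cast this
  have hd0 := eight_mul_dg (m := m) (j := j) (i := t + 2) (by omega) (by omega) 0
  have hd1 := eight_mul_dg (m := m) (j := j) (i := t + 2) (by omega) (by omega) 1
  have hd2 := eight_mul_dg (m := m) (j := j) (i := t + 2) (by omega) (by omega) 2
  have hg0 : gw 0 = 3 := rfl
  have hg1 : gw 1 = 3 := rfl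
  have hg2 : gw 2 = 2 := rfl
  rw [hg0] at hd0
  rw [hg1] at hd1
  rw [hg2] at hd2
  have e3 : t + 2 - 1 = t + 1 := by omega
  rw [e3] at hd0 hd1 hd2
  have key : ∀ a b c : Fin 3, ∀ nb nc : ℕ, 10001 * nb ≤ 10000 * dg m j (t + 2) b →
      10001 * nc ≤ 10000 * dg m j (t + 2) c → dg m j (t + 2) a ≤ nb + nc →
      ps t a ^ es m j t a ≤ ps t b ^ es m j t b * ps t c ^ es m j t c := by
    intro a b c nb nc hnb hnc ha
    have f1 : Qf m j (t + 2) a ≤ (10 ^ 6) ^ dg m j (t + 2) a := Qf_le m j (t + 2) a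
    have f2 := h0 j hl.1 (t + 2) (by omega) (by omega) b nb hnb
    have f3 := h0 j hl.1 (t + 2) (by omega) (by omega) c nc hnc
    show Qf m j (t + 2) a ≤ Qf m j (t + 2) b * Qf m j (t + 2) c
    calc Qf m j (t + 2) a ≤ (10 ^ 6) ^ dg m j (t + 2) a := f1
      _ ≤ (10 ^ 6) ^ (nb + nc) := Nat.pow_le_pow_right (by norm_num) ha
      _ = (10 ^ 6) ^ nb * (10 ^ 6) ^ nc := pow_add _ _ _
      _ ≤ _ := Nat.mul_le_mul f2 f3
  refine ⟨key 0 1 2 (10000 * dg m j (t + 2) 1 / 10001) (10000 * dg m j (t + 2) 2 / 10001)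
      (by omega) (by omega) (by omega),
    key 1 0 2 (10000 * dg m j (t + 2) 0 / 10001) (10000 * dg m j (t + 2) 2 / 10001)
      (by omega) (by omega) (by omega),
    key 2 0 1 (10000 * dg m j (t + 2) 0 / 10001) (10000 * dg m j (t + 2) 1 / 10001)
      (by omega) (by omega) (by omega)⟩

/-- size of the deeper windows -/
theorem exists_deep (m k : ℕ) (hk : k + 2 ≤ m) : ∃ j0 C : ℕ, 0 < C ∧ ∀ l, j0 ≤ era l →
    used m l → ∀ h < k, XA m k (l + 1) / (Nj l * LL (QQ m (era l)) (h + 1)) + 1 ≤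
      C * (10 ^ 6) ^ W m (era l) (h + 2) := by
  obtain ⟨j1, h1⟩ := exists_large m
  refine ⟨j1, 2000075 * ∑ h ∈ range k, spq (h + 2) + 1, Nat.succ_pos _, fun l hl hu h hh => ?_⟩
  have hb := h1 (era l) hl
  set j := era l with hj
  have hr := rt_ge hb (by omega)
  have he : era (l + 1) = j := (era_add_two hu hb (by omega)).1
  have hS : spq (h + 2) ≤ ∑ h ∈ range k, spq (h + 2) :=
    Finset.single_le_sum (f := fun h => spq (h + 2)) (fun _ _ => Nat.zero_le _) (mem_range.2 hh)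
  have hS0 := spq_pos (h + 2)
  -- `TA ≤ 2 (10^6)^W1`
  have hLA : LA m k j ≤ (10 ^ 6) ^ W m j 1 := by
    unfold LA
    rw [LL_QQ]
    refine (Lp_le (by omega) (by omega) (by omega)).trans ?_
    exact Nat.pow_le_pow_right (by norm_num) (Nat.sub_le _ _)
  have hTA : TA m k j ≤ 2 * (10 ^ 6) ^ W m j 1 := by
    unfold TA vlo
    have := Nat.mul_div_le ((10 ^ 6) ^ W m j 1) (LA m k j)
    rw [mul_add, mul_one]
    omega
  have hX : XA m k (l + 1) ≤ Nj l * (2000074 * (10 ^ 6) ^ W m j 1) := by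
    unfold XA XT
    rw [he]
    have h2 := Pool.Agent.Helper30.ET.Nj_upper (show l ≤ l + 1 by omega)
    have h3 : l + 1 - l = 1 := by omega
    rw [h3, pow_one] at h2
    calc Nj (l + 1) * TA m k j ≤ (Nj l * 1000037) * (2 * (10 ^ 6) ^ W m j 1) :=
          Nat.mul_le_mul h2 hTA
      _ = _ := by ring
  have hL := LQ_pos m j (h + 1)
  have hN := Nj_pos1 l
  have h4 : (10 ^ 6) ^ (W m j 1 - W m j (h + 2)) ≤ LL (QQ m j) (h + 1) * spq (h + 2) := by
    rw [LL_QQ]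
    exact le_Lp_mul (by omega) (by omega) (by omega)
  have hWW : W m j (h + 2) ≤ W m j 1 := Pool.Agent.Helper30.T5.W_anti m j (by omega)
  have h5 : (10 ^ 6) ^ W m j 1 ≤
      LL (QQ m j) (h + 1) * (spq (h + 2) * (10 ^ 6) ^ W m j (h + 2)) := by
    calc (10 ^ 6) ^ W m j 1 = (10 ^ 6) ^ (W m j 1 - W m j (h + 2)) * (10 ^ 6) ^ W m j (h + 2) := by
          rw [← pow_add]
          congr 1
          omega
      _ ≤ (LL (QQ m j) (h + 1) * spq (h + 2)) * (10 ^ 6) ^ W m j (h + 2) := by gcongr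
      _ = _ := by ring
  have h6 : XA m k (l + 1) / (Nj l * LL (QQ m j) (h + 1)) ≤
      2000074 * (spq (h + 2) * (10 ^ 6) ^ W m j (h + 2)) := by
    refine Nat.div_le_of_le_mul (hX.trans ?_)
    calc Nj l * (2000074 * (10 ^ 6) ^ W m j 1)
        ≤ Nj l * (2000074 * (LL (QQ m j) (h + 1) * (spq (h + 2) * (10 ^ 6) ^ W m j (h + 2)))) := by
          gcongr
      _ = _ := by ring
  have h7 : 1 ≤ (10 ^ 6) ^ W m j (h + 2) := Nat.one_le_pow _ _ (by norm_num)
  generalize (10 ^ 6) ^ W m j (h + 2) = E at *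
  generalize ∑ h ∈ range k, spq (h + 2) = S at *
  calc XA m k (l + 1) / (Nj l * LL (QQ m j) (h + 1)) + 1
      ≤ 2000074 * (spq (h + 2) * E) + E := by omega
    _ ≤ 2000074 * (S * E) + E := by gcongr
    _ ≤ (2000075 * S + 1) * E := by nlinarith

end Pool.Agent.Helper45.T5
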