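import Mathlib

/-!
# T5, block REG: regularity of the structured windows `S * m y + Q * z` from the regularity of `m y`

`m y` is the code of the next static level (divided by the front), `z` is the deeper part, which is
treated crudely.
-/

set_option autoImplicit false

namespace Pool.Agent.Helper45.T5

open Finset

/-- one deeper part -/
theorem pass_one {β : Type*} [DecidableEq β] (Y : Finset β) (m : β → ℕ) {Q S g : ℕ} (hg : 0 < g)
    (hS : 0 < S) {ρ : ℝ} (hρ : 0 ≤ ρ)
    (hreg : ∀ h, h ∣ g → ∀ a A c : ℕ,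
      ((Y.filter fun y => a ≤ m y ∧ m y < a + A ∧ m y % h = c % h).card : ℝ) ≤
        ρ * (1 + A / (h * Real.sqrt Q))) (lo len c u : ℕ) :
    ((Y.filter fun y => lo ≤ S * m y + u ∧ S * m y + u < lo + len ∧
      (S * m y + u) % g = c % g).card : ℝ) ≤ ρ * (1 + ((len : ℝ) / g + 1) / Real.sqrt Q) := by
  classical
  have hgR : (0 : ℝ) < g := by exact_mod_cast hg
  have hR : 0 ≤ ρ * (1 + ((len : ℝ) / g + 1) / Real.sqrt Q) := by positivity
  set Y1 := Y.filter fun y => lo ≤ S * m y + u ∧ S * m y + u < lo + len ∧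
    (S * m y + u) % g = c % g with hY1
  rcases Y1.eq_empty_or_nonempty with h0 | hne
  · rw [h0]
    simpa using hR
  obtain ⟨y0, hy0, hmin⟩ := Finset.exists_min_image Y1 m hne
  set d := Nat.gcd S g with hd
  have hdg : d ∣ g := Nat.gcd_dvd_right S g
  have hdS : d ∣ S := Nat.gcd_dvd_left S g
  have hd0 : 0 < d := Nat.gcd_pos_of_pos_right _ hg
  obtain ⟨h, hh⟩ := hdg
  obtain ⟨S', hS'⟩ := hdS
  have hh0 : 0 < h := Nat.pos_of_mul_pos_left (by rw [← hh]; exact hg) |> fun _ => by
    rcases Nat.eq_zero_or_pos h with h1 | h1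
    · rw [h1, mul_zero] at hh
      omega
    · exact h1
  have hcop : Nat.Coprime S' h := by
    have h1 : Nat.gcd (S / d) (g / d) = 1 := Nat.gcd_div_gcd_div_gcd_of_pos_right hg
    rw [hS', hh, Nat.mul_div_cancel_left _ hd0, Nat.mul_div_cancel_left _ hd0] at h1
    exact h1
  -- all elements are in one class modulo `h` and in a short arc
  set A := len / S + 1 with hA
  have hsub : Y1 ⊆ Y.filter fun y => m y0 ≤ m y ∧ m y < m y0 + A ∧ m y % h = m y0 % h := by
    intro y hy
    have hmy := hmin y hy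
    rw [hY1, Finset.mem_filter] at hy hy0
    obtain ⟨hyY, a1, a2, a3⟩ := hy
    obtain ⟨-, b1, b2, b3⟩ := hy0
    rw [Finset.mem_filter]
    refine ⟨hyY, hmy, ?_, ?_⟩
    · have e1 : S * m y < S * m y0 + len := by omega
      have e2 : S * (m y - m y0) < len := by
        rw [Nat.mul_sub]
        omega
      have e3 : m y - m y0 ≤ len / S := by
        rw [Nat.le_div_iff_mul_le hS, mul_comm]
        exact e2.le
      omega
    · have e1 : S * m y + u ≡ S * m y0 + u [MOD g] := a3.trans b3.symm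
      have e2 : S * m y ≡ S * m y0 [MOD g] := Nat.ModEq.add_right_cancel' u e1
      rw [hS', hh, mul_assoc, mul_assoc] at e2
      have e3 : S' * m y ≡ S' * m y0 [MOD h] := Nat.ModEq.mul_left_cancel' hd0.ne' e2
      exact Nat.ModEq.cancel_left_of_coprime (by rwa [Nat.coprime_comm] at hcop) e3
  have h1 := hreg h ⟨d, by rw [hh, mul_comm]⟩ (m y0) A (m y0)
  have h2 : (Y1.card : ℝ) ≤ _ := (Nat.cast_le.2 (Finset.card_le_card hsub)).trans h1
  refine h2.trans (mul_le_mul_of_nonneg_left ?_ hρ)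
  have hhR : (0 : ℝ) < h := by exact_mod_cast hh0
  have hSR : (0 : ℝ) < S := by exact_mod_cast hS
  have hAR : (A : ℝ) ≤ len / S + 1 := by
    rw [hA]
    push_cast
    have := Nat.cast_div_le (α := ℝ) (m := len) (n := S)
    linarith
  have hgSh : (g : ℝ) ≤ S * h := by
    have : g ≤ S * h := by
      rw [hh]
      exact Nat.mul_le_mul_right _ (Nat.le_of_dvd hS ⟨S', hS'⟩)
    exact_mod_cast this
  have h3 : (A : ℝ) / h ≤ len / g + 1 := by
    rw [div_le_iff₀ hhR]
    have e1 : (len : ℝ) / S ≤ len / g * h := by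
      rw [div_mul_eq_mul_div, div_le_div_iff₀ hSR hgR]
      have : (0 : ℝ) ≤ len := Nat.cast_nonneg _
      nlinarith
    have e2 : (1 : ℝ) ≤ h := by exact_mod_cast hh0
    nlinarith
  have h4 : (A : ℝ) / (h * Real.sqrt Q) ≤ (len / g + 1) / Real.sqrt Q := by
    rw [← div_div]
    exact div_le_div_of_nonneg_right h3 (Real.sqrt_nonneg _)
  linarith

/-- PASSAGE: regularity of `S * m y + Q * z` -/
theorem pass {β : Type*} [DecidableEq β] (Y : Finset β) (m : β → ℕ) {Q S g : ℕ} (hg : 0 < g)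
    (hS : 0 < S) {ρ : ℝ} (hρ : 0 ≤ ρ)
    (hreg : ∀ h, h ∣ g → ∀ a A c : ℕ,
      ((Y.filter fun y => a ≤ m y ∧ m y < a + A ∧ m y % h = c % h).card : ℝ) ≤
        ρ * (1 + A / (h * Real.sqrt Q))) (Z : Finset ℕ) (lo len c : ℕ) :
    (((Y ×ˢ Z).filter fun q => lo ≤ S * m q.1 + Q * q.2 ∧ S * m q.1 + Q * q.2 < lo + len ∧
      (S * m q.1 + Q * q.2) % g = c % g).card : ℝ) ≤
        Z.card * (ρ * (1 + ((len : ℝ) / g + 1) / Real.sqrt Q)) := by
  classical
  have h1 : ((Y ×ˢ Z).filter fun q => lo ≤ S * m q.1 + Q * q.2 ∧ S * m q.1 + Q * q.2 < lo + len ∧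
      (S * m q.1 + Q * q.2) % g = c % g).card = ∑ z ∈ Z,
      (Y.filter fun y => lo ≤ S * m y + Q * z ∧ S * m y + Q * z < lo + len ∧
        (S * m y + Q * z) % g = c % g).card := by
    rw [Finset.card_eq_sum_card_fiberwise (f := Prod.snd) (t := Z)]
    · refine Finset.sum_congr rfl fun z hz => ?_
      refine Finset.card_bij (fun q _ => q.1) ?_ ?_ ?_
      · intro q hq
        simp only [Finset.mem_filter, Finset.mem_product] at hq ⊢
        obtain ⟨⟨⟨hY, hZ⟩, hc⟩, rfl⟩ := hq
        exact ⟨hY, hc⟩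
      · intro q hq q' hq' he
        simp only [Finset.mem_filter] at hq hq'
        exact Prod.ext he (hq.2.trans hq'.2.symm)
      · intro y hy
        simp only [Finset.mem_filter] at hy
        exact ⟨(y, z), by simp [hy.1, hz, hy.2.1, hy.2.2.1, hy.2.2.2], rfl⟩
    · intro q hq
      simp only [Finset.coe_filter, Finset.mem_product, Set.mem_setOf_eq] at hq
      exact hq.1.2
  rw [h1]
  push_cast
  rw [← nsmul_eq_mul, ← Finset.sum_const]
  exact Finset.sum_le_sum fun z _ => pass_one Y m hg hS hρ hreg lo len c (Q * z)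

end Pool.Agent.Helper45.T5
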