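import Mathlib
import Pool.Agent.Helper29.T4.Pin

/-!
# Chernoff bound for sums of independent variables with values in `[0, B]` (T5, MP_12a1af_nt)

The probability space is `Om M` (keys `k` with values in `range (M k)`), the variable `X i`
depends only on the keys in `D i`, and the sets `D i` are pairwise disjoint.

* `avg M f`: the mean of `f`.
* `avg_mul`, `avg_prod`: independence.
* `chernoff`: `P(a ≤ ∑ X i) ≤ exp ((2 mean - a) / B)`.
* `chernoff_le`: the same with an upper bound for the mean and `a = 2 m + B t`.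
-/

set_option autoImplicit false

namespace Pool.Agent.Helper45.T5

open Finset Pool.Agent.Helper29.T4

variable {κ : Type*} [Fintype κ] [DecidableEq κ]

/-- `f` depends only on the keys in `D`. -/
def DepOn {β : Type*} (D : Finset κ) (f : (κ → ℕ) → β) : Prop :=
  ∀ r r' : κ → ℕ, (∀ k ∈ D, r k = r' k) → f r = f r'

/-- the mean -/
noncomputable def avg (M : κ → ℕ) (f : (κ → ℕ) → ℝ) : ℝ :=
  (∑ r ∈ Om M, f r) / ((Om M).card : ℝ)

theorem DepOn.mono {β : Type*} {D D' : Finset κ} {f : (κ → ℕ) → β} (h : DepOn D f)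
    (hD : D ⊆ D') : DepOn D' f := fun r r' hr => h r r' fun k hk => hr k (hD hk)

theorem mem_Om {M : κ → ℕ} {r : κ → ℕ} : r ∈ Om M ↔ ∀ k, r k < M k := by
  simp [Om, Fintype.mem_piFinset]

/-- exchange of the coordinates in `D` -/
def swp (D : Finset κ) (q : (κ → ℕ) × (κ → ℕ)) : (κ → ℕ) × (κ → ℕ) :=
  (fun k => if k ∈ D then q.2 k else q.1 k, fun k => if k ∈ D then q.1 k else q.2 k)

theorem swp_swp (D : Finset κ) (q : (κ → ℕ) × (κ → ℕ)) : swp D (swp D q) = q := by
  refine Prod.ext ?_ ?_ <;>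
  · funext k
    simp only [swp]
    by_cases h : k ∈ D <;> simp [h]

theorem swp_mem {M : κ → ℕ} (D : Finset κ) {q : (κ → ℕ) × (κ → ℕ)}
    (h : q ∈ Om M ×ˢ Om M) : swp D q ∈ Om M ×ˢ Om M := by
  rw [mem_product, mem_Om, mem_Om] at h ⊢
  constructor
  · intro k
    simp only [swp]
    split_ifs
    · exact h.2 k
    · exact h.1 k
  · intro k
    simp only [swp]
    split_ifs
    · exact h.1 k
    · exact h.2 k

/-- independence of two functions -/
theorem sum_mul_sum_eq (M : κ → ℕ) {D E : Finset κ} (hDE : Disjoint D E)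
    {f g : (κ → ℕ) → ℝ} (hf : DepOn D f) (hg : DepOn E g) :
    (∑ r ∈ Om M, g r) * (∑ r ∈ Om M, f r) = (∑ r ∈ Om M, g r * f r) * ((Om M).card : ℝ) := by
  have h1 : (∑ r ∈ Om M, g r) * (∑ r ∈ Om M, f r) =
      ∑ q ∈ Om M ×ˢ Om M, g q.1 * f q.2 := by
    rw [Finset.sum_mul_sum, Finset.sum_product]
  have h2 : (∑ r ∈ Om M, g r * f r) * ((Om M).card : ℝ) =
      ∑ q ∈ Om M ×ˢ Om M, g q.1 * f q.1 := by
    rw [Finset.sum_product]
    simp only [Finset.sum_const, nsmul_eq_mul]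
    rw [Finset.sum_mul]
    exact Finset.sum_congr rfl fun _ _ => mul_comm _ _
  rw [h1, h2]
  refine Finset.sum_bij' (fun q _ => swp D q) (fun q _ => swp D q)
    (fun q hq => swp_mem D hq) (fun q hq => swp_mem D hq)
    (fun q _ => swp_swp D q) (fun q _ => swp_swp D q) ?_
  intro q _
  congr 1
  · refine hg _ _ fun k hk => ?_
    have : k ∉ D := fun h => (Finset.disjoint_left.1 hDE h) hk
    simp [swp, this]
  · refine hf _ _ fun k hk => ?_
    simp [swp, hk]

variable {M : κ → ℕ}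

theorem card_Om_pos (hM : ∀ k, 0 < M k) : 0 < ((Om M).card : ℝ) := by
  have : 0 < (Om M).card := Finset.card_pos.2 ⟨fun _ => 0, mem_Om.2 fun k => hM k⟩
  exact_mod_cast this

theorem avg_mul (hM : ∀ k, 0 < M k) {D E : Finset κ} (hDE : Disjoint D E)
    {f g : (κ → ℕ) → ℝ} (hf : DepOn D f) (hg : DepOn E g) :
    avg M (fun r => g r * f r) = avg M g * avg M f := by
  have h := sum_mul_sum_eq M hDE hf hg
  have hc := card_Om_pos hM
  unfold avg
  rw [div_mul_div_comm, h]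
  field_simp

theorem avg_one (hM : ∀ k, 0 < M k) : avg M (fun _ => 1) = 1 := by
  unfold avg
  rw [Finset.sum_const, nsmul_eq_mul, mul_one]
  exact div_self (card_Om_pos hM).ne'

theorem avg_mono (hM : ∀ k, 0 < M k) {f g : (κ → ℕ) → ℝ} (h : ∀ r ∈ Om M, f r ≤ g r) :
    avg M f ≤ avg M g :=
  div_le_div_of_nonneg_right (Finset.sum_le_sum h) (card_Om_pos hM).le

theorem avg_nonneg {f : (κ → ℕ) → ℝ} (h : ∀ r ∈ Om M, 0 ≤ f r) : 0 ≤ avg M f :=
  div_nonneg (Finset.sum_nonneg h) (Nat.cast_nonneg _)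

/-- independence of several functions -/
theorem avg_prod (hM : ∀ k, 0 < M k) {ι : Type*} [DecidableEq ι] (I : Finset ι)
    (D : ι → Finset κ) (hD : ∀ i ∈ I, ∀ j ∈ I, i ≠ j → Disjoint (D i) (D j))
    (F : ι → (κ → ℕ) → ℝ) (hF : ∀ i ∈ I, DepOn (D i) (F i)) :
    avg M (fun r => ∏ i ∈ I, F i r) = ∏ i ∈ I, avg M (F i) := by
  induction I using Finset.induction_on with
  | empty => simpa using avg_one hM
  | insert a I ha ih =>
    have h1 : avg M (fun r => ∏ i ∈ insert a I, F i r) =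
        avg M (fun r => F a r * ∏ i ∈ I, F i r) := by
      congr 1
      funext r
      rw [Finset.prod_insert ha]
    rw [h1, Finset.prod_insert ha, ← ih (fun i hi j hj => hD i (mem_insert_of_mem hi) j
      (mem_insert_of_mem hj)) fun i hi => hF i (mem_insert_of_mem hi)]
    refine avg_mul hM (D := I.biUnion D) (E := D a) ?_ ?_ (hF a (mem_insert_self _ _))
    · rw [Finset.disjoint_biUnion_left]
      intro i hi
      exact hD i (mem_insert_of_mem hi) a (mem_insert_self _ _) fun e => ha (e ▸ hi)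
    · intro r r' hr
      refine Finset.prod_congr rfl fun i hi => ?_
      exact hF i (mem_insert_of_mem hi) r r' fun k hk => hr k (mem_biUnion.2 ⟨i, hi, hk⟩)

/-- convexity of the exponential function -/
theorem exp_le_one_add {x : ℝ} (h0 : 0 ≤ x) (h1 : x ≤ 1) : Real.exp x ≤ 1 + 2 * x := by
  have hc := convexOn_exp.2 (Set.mem_univ (0 : ℝ)) (Set.mem_univ (1 : ℝ))
    (by linarith : 0 ≤ 1 - x) h0 (by ring)
  simp only [smul_eq_mul, mul_zero, mul_one, zero_add, Real.exp_zero] at hc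
  have he : Real.exp 1 < 3 := Real.exp_one_lt_three
  nlinarith

/-- CHERNOFF -/
theorem chernoff (hM : ∀ k, 0 < M k) {ι : Type*} [DecidableEq ι] (I : Finset ι)
    (D : ι → Finset κ) (hD : ∀ i ∈ I, ∀ j ∈ I, i ≠ j → Disjoint (D i) (D j))
    (X : ι → (κ → ℕ) → ℝ) (hX : ∀ i ∈ I, DepOn (D i) (X i)) {B : ℝ} (hB : 0 < B)
    (h0 : ∀ i ∈ I, ∀ r ∈ Om M, 0 ≤ X i r) (h1 : ∀ i ∈ I, ∀ r ∈ Om M, X i r ≤ B) (a : ℝ) :
    (((Om M).filter fun r => a ≤ ∑ i ∈ I, X i r).card : ℝ) ≤
      Real.exp ((2 * ∑ i ∈ I, avg M (X i) - a) / B) * ((Om M).card : ℝ) := by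
  have hc := card_Om_pos hM
  -- the exponential moment
  have hm : avg M (fun r => ∏ i ∈ I, Real.exp (X i r / B)) ≤
      Real.exp (2 * (∑ i ∈ I, avg M (X i)) / B) := by
    rw [avg_prod hM I D hD (fun i r => Real.exp (X i r / B)) fun i hi r r' hr => by
      show Real.exp (X i r / B) = Real.exp (X i r' / B)
      rw [hX i hi r r' hr]]
    rw [Finset.mul_sum, Finset.sum_div, Real.exp_sum]
    refine Finset.prod_le_prod (fun i _ => avg_nonneg fun r _ => (Real.exp_pos _).le) fun i hi => ?_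
    have h2 : avg M (fun r => Real.exp (X i r / B)) ≤ avg M (fun r => 1 + 2 * (X i r / B)) :=
      avg_mono hM fun r hr => exp_le_one_add (div_nonneg (h0 i hi r hr) hB.le)
        ((div_le_one hB).2 (h1 i hi r hr))
    have h3 : avg M (fun r => 1 + 2 * (X i r / B)) = 2 * avg M (X i) / B + 1 := by
      unfold avg
      rw [Finset.sum_add_distrib, Finset.sum_const, nsmul_eq_mul, mul_one, ← Finset.mul_sum,
        ← Finset.sum_div]
      field_simp
      ring
    rw [h3] at h2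
    exact h2.trans (Real.add_one_le_exp _)
  -- Markov
  have h4 : (((Om M).filter fun r => a ≤ ∑ i ∈ I, X i r).card : ℝ) * Real.exp (a / B) ≤
      ∑ r ∈ Om M, ∏ i ∈ I, Real.exp (X i r / B) := by
    rw [← nsmul_eq_mul, ← Finset.sum_const]
    refine (Finset.sum_le_sum fun r hr => ?_).trans
      (Finset.sum_le_sum_of_subset_of_nonneg (Finset.filter_subset _ _)
        fun r _ _ => Finset.prod_nonneg fun i _ => (Real.exp_pos _).le)
    rw [← Real.exp_sum, ← Finset.sum_div]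
    exact Real.exp_le_exp.2 (div_le_div_of_nonneg_right (mem_filter.1 hr).2 hB.le)
  have h5 : (∑ r ∈ Om M, ∏ i ∈ I, Real.exp (X i r / B)) ≤
      Real.exp (2 * (∑ i ∈ I, avg M (X i)) / B) * ((Om M).card : ℝ) := by
    have := (div_le_iff₀ hc).1 hm
    exact this
  have h6 : Real.exp ((2 * ∑ i ∈ I, avg M (X i) - a) / B) =
      Real.exp (2 * (∑ i ∈ I, avg M (X i)) / B) / Real.exp (a / B) := by
    rw [sub_div, Real.exp_sub]
  rw [h6, div_mul_eq_mul_div, le_div_iff₀ (Real.exp_pos _)]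
  exact h4.trans h5

/-- CHERNOFF, with a bound for the mean -/
theorem chernoff_le (hM : ∀ k, 0 < M k) {ι : Type*} [DecidableEq ι] (I : Finset ι)
    (D : ι → Finset κ) (hD : ∀ i ∈ I, ∀ j ∈ I, i ≠ j → Disjoint (D i) (D j))
    (X : ι → (κ → ℕ) → ℝ) (hX : ∀ i ∈ I, DepOn (D i) (X i)) {B : ℝ} (hB : 0 < B)
    (h0 : ∀ i ∈ I, ∀ r ∈ Om M, 0 ≤ X i r) (h1 : ∀ i ∈ I, ∀ r ∈ Om M, X i r ≤ B)
    {m : ℝ} (hm : ∑ i ∈ I, avg M (X i) ≤ m) (t : ℝ) :
    (((Om M).filter fun r => 2 * m + B * t ≤ ∑ i ∈ I, X i r).card : ℝ) ≤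
      Real.exp (-t) * ((Om M).card : ℝ) := by
  refine (chernoff hM I D hD X hX hB h0 h1 (2 * m + B * t)).trans ?_
  refine mul_le_mul_of_nonneg_right (Real.exp_le_exp.2 ?_) (Nat.cast_nonneg _)
  rw [div_le_iff₀ hB]
  linarith

end Pool.Agent.Helper45.T5
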