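import Pool.Agent.Helper11.T5.Defs
import Pool.Agent.Helper45.T5.RegWin

/-!
# T5a, block SL-R: regularity of the windows of the static levels, concrete form

`IsWin m k l h w b`: `b` is a window of the state `l` below the static levels `< h`.
-/

set_option autoImplicit false

namespace Pool.Agent.Helper45.T5

open Finset Pool.Agent.Helper27.T4 Pool.Agent.Helper27.T5
open Pool.Agent.Helper5.ET (pr Nj era mask bb)
open Pool.Agent.Helper22.SL Pool.Agent.Helper30.T5 Pool.Agent.Helper57.T5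
open Pool.Agent.Helper39.T5 Pool.Agent.Helper50.T5 Pool.Agent.Helper11.T5 Pool.Agent.Helper41.T5
open Pool.Agent.Helper22.HW (Side)

/-- the windows below the static levels `< h` -/
def IsWin (m k l h : ℕ) (w : Key → ℕ) (b : ℕ) : Prop :=
  ∃ y : ℕ → Fin 3 → ℕ, (∀ t, h ≤ t → t < k → y t ∈ Ys m (era l) t) ∧ ∃ v ∈ Vw m k l w,
    Nj l * LL (QQ m (era l)) h * b =
      ∑ t ∈ Ico h k, cs m l t w (y t) + Nj l * LA m k (era l) * v

/-! ## the codes -/

theorem QQ_pos (m j t : ℕ) : 0 < QQ m j t := Qs_pos _ _ _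

theorem LQ_pos (m j t : ℕ) : 0 < LL (QQ m j) t := LL_pos (fun i _ => QQ_pos m j i)

theorem FF_pos (m l t : ℕ) : 0 < FF m l t := Nj_pos1 _

theorem cs_dvd (m l t : ℕ) (w : Key → ℕ) (y : Fin 3 → ℕ) :
    FF m l (t + 1) * LL (QQ m (era l)) t ∣ cs m l t w y :=
  Pool.Agent.Helper22.HW.dvd_fc _ _ _ _ _

theorem cs_lt (m l t : ℕ) (w : Key → ℕ) (y : Fin 3 → ℕ) :
    cs m l t w y < FF m l (t + 1) * LL (QQ m (era l)) (t + 1) := by
  have h := Pool.Agent.Helper22.HW.fc_lt (ps_prime t) (ps_inj t) (Ss m l t).F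
    (Nat.mul_pos (FF_pos m l (t + 1)) (LQ_pos m (era l) t)) (Ss m l t).e
    (fun i => Lg (ps t i) ((Ss m l t).e i) (y i) + (Ss m l t).rho w i y)
  rw [LL_succ, ← mul_assoc]
  exact h

theorem sum_cs_le {m l k : ℕ}
    (hdb : ∀ t < k, 2 * (FF m l t * LL (QQ m (era l)) t) ≤
      FF m l (t + 1) * LL (QQ m (era l)) (t + 1)) (w : Key → ℕ) (y : ℕ → Fin 3 → ℕ) :
    ∀ r ≤ k, ∑ t ∈ range r, cs m l t w (y t) ≤ 2 * (FF m l r * LL (QQ m (era l)) r) := by
  intro r
  induction r with
  | zero => intro _; simp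
  | succ r ih =>
    intro hr
    rw [sum_range_succ]
    have h1 := ih (by omega)
    have h2 := hdb r (by omega)
    have h3 := cs_lt m l r w (y r)
    omega

/-! ## the form of a window -/

theorem isWin_form {m k l h : ℕ} (hh : h < k) (hF : ∀ t ≤ k, Nj l ∣ FF m l t)
    (hdb : ∀ t < k, 2 * (FF m l t * LL (QQ m (era l)) t) ≤
      FF m l (t + 1) * LL (QQ m (era l)) (t + 1)) {w : Key → ℕ} {b : ℕ}
    (hb : IsWin m k l h w b) :
    ∃ y ∈ Ys m (era l) h, ∃ z < XA m k (l + 1) / (Nj l * LL (QQ m (era l)) (h + 1)) + 1,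
      b = FF m l (h + 1) / Nj l * ((Ss m l h).cd (ps_prime h) (ps_inj h) w y / (Ss m l h).F) +
        NN (ps h) (Ss m l h).e * z := by
  obtain ⟨y, hy, v, hv, hbv⟩ := hb
  set j := era l with hj
  have hN := Nj_pos1 l
  have hL := LQ_pos m j (h + 1)
  -- the deeper part
  set D := ∑ t ∈ Ico (h + 1) k, cs m l t w (y t) + Nj l * LA m k j * v with hD
  have hdvd : Nj l * LL (QQ m j) (h + 1) ∣ D := by
    refine dvd_add (Finset.dvd_sum fun t ht => ?_) ?_
    · rw [mem_Ico] at ht
      refine dvd_trans ?_ (cs_dvd m l t w (y t))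
      exact Nat.mul_dvd_mul (hF (t + 1) (by omega)) (LL_dvd _ ht.1)
    · refine dvd_mul_of_dvd_left ?_ _
      exact Nat.mul_dvd_mul_left _ (LL_dvd _ (by omega))
  obtain ⟨z, hz⟩ := hdvd
  refine ⟨y h, hy h le_rfl hh, z, ?_, ?_⟩
  · -- the bound
    have h1 := sum_cs_le hdb w y k le_rfl
    have h2 : ∑ t ∈ Ico (h + 1) k, cs m l t w (y t) ≤ ∑ t ∈ range k, cs m l t w (y t) := by
      apply Finset.sum_le_sum_of_subset
      intro t ht
      rw [mem_Ico] at ht
      rw [mem_range]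
      exact ht.2
    have hv2 : v < vhi m k l := by
      unfold Vw VW at hv
      rw [mem_filter, mem_Ico] at hv
      exact hv.1.2
    have h3 : (v + 1) * (Nj l * LA m k j) ≤ XA m k (l + 1) - 2 * (FF m l k * LA m k j) := by
      have : v + 1 ≤ vhi m k l := hv2
      unfold vhi at this
      rw [Nat.le_div_iff_mul_le (Nat.mul_pos hN (LA_pos _ _ _))] at this
      exact this
    have h4 : 0 < Nj l * LA m k j := Nat.mul_pos hN (LA_pos _ _ _)
    have h5 : (v + 1) * (Nj l * LA m k j) = Nj l * LA m k j * v + Nj l * LA m k j := by ring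
    have h6 : FF m l k * LL (QQ m j) k = FF m l k * LA m k j := rfl
    have h7 : D < XA m k (l + 1) := by
      rw [h5] at h3
      rw [h6] at h1
      omega
    have h8 : z * (Nj l * LL (QQ m j) (h + 1)) ≤ XA m k (l + 1) := by
      rw [mul_comm, ← hz]
      exact h7.le
    exact Nat.lt_succ_of_le ((Nat.le_div_iff_mul_le (Nat.mul_pos hN hL)).2 h8)
  · obtain ⟨c, hc⟩ := hF (h + 1) (by omega)
    have hc1 : FF m l (h + 1) / Nj l = c := by rw [hc, Nat.mul_div_cancel_left _ hN]
    rw [hc1]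
    refine win_form (ps_prime h) (ps_inj h) (Ss m l h) w (N := Nj l * LL (QQ m j) h)
      (Nat.mul_pos hN (LQ_pos _ _ _)) ?_ ?_
    · show FF m l (h + 1) * LL (QQ m j) h = _
      rw [hc]
      ring
    · rw [hbv, Finset.sum_eq_sum_Ico_succ_bot hh, add_assoc]
      have e1 : cs m l h w (y h) = (Ss m l h).cd (ps_prime h) (ps_inj h) w (y h) := rfl
      rw [e1]
      congr 1
      have e2 : NN (ps h) (Ss m l h).e = QQ m j h := rfl
      rw [← hD, hz, e2, LL_succ]
      ring

/-! ## the keys -/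

theorem LQ_cop (m j t : ℕ) (f : Fin 3) : (LL (QQ m j) t).Coprime (ps t f) := by
  unfold LL
  refine Nat.Coprime.prod_left fun i hi => ?_
  rw [mem_range] at hi
  unfold QQ Qs
  refine Nat.Coprime.prod_left fun g _ => ?_
  unfold Qf
  refine Nat.Coprime.pow_left _ ?_
  refine coprime_sp ?_
  have h1 := g.2
  omega

theorem Ss_ok (m l t : ℕ) : (Ss m l t).Ok rk3 (Mk m) where
  pos := Nat.mul_pos (FF_pos m l (t + 1)) (LQ_pos m (era l) t)
  cop i := Nat.Coprime.mul_left (coprime_Nj_sp _ _) (LQ_cop m (era l) t i)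
  ze i := le_rfl
  dep i y y' h := by
    show hkey _ _ _ _ = hkey _ _ _ _
    congr 1
    funext g
    unfold mask
    by_cases hg : g ∈ univ.filter (fun g => g < i)
    · rw [if_pos hg, if_pos hg]
      rw [mem_filter] at hg
      exact h g hg.2
    · rw [if_neg hg, if_neg hg]
  inj i i' y y' h := by
    have h1 : hkey l (t + 2) i (mask (univ.filter (fun g => g < i)) y) =
      hkey l (t + 2) i' (mask (univ.filter (fun g => g < i')) y') := h
    unfold hkey at h1
    rw [Prod.mk.injEq, Prod.mk.injEq, Prod.mk.injEq, Prod.mk.injEq] at h1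
    obtain ⟨-, -, -, h2, h3⟩ := h1
    have h4 : i = i' := Fin.ext h2
    refine ⟨h4, fun j hj => ?_⟩
    subst h4
    have h5 := congrFun h3 j
    unfold mask at h5
    have h6 : j ∈ univ.filter (fun g => g < i) := by
      rw [mem_filter]
      exact ⟨mem_univ _, hj⟩
    rwa [if_pos h6, if_pos h6] at h5
  size i y := Mk_static m l t i _

theorem Ys_lt {m j t : ℕ} {y : Fin 3 → ℕ} (hy : y ∈ Ys m j t) (g : Fin 3) :
    y g < QQ m j t :=
  (mem_filter.1 (Fintype.mem_piFinset.1 hy g)).2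

theorem key_mem {m k l t : ℕ} (ht : t < k) (i : Fin 3) {y : Fin 3 → ℕ}
    (hy : y ∈ Ys m (era l) t) : (Ss m l t).key i y ∈ keysOf m k l := by
  show hkey l (t + 2) i _ ∈ _
  unfold hkey keysOf
  simp only [mem_product, mem_singleton, mem_range, Fintype.mem_piFinset, true_and]
  refine ⟨by omega, ?_, fun g => ?_⟩
  · have := i.2
    omega
  · have h1 := Ys_lt hy g
    have h2 : QQ m (era l) t ≤ LA m k (era l) := by
      refine Nat.le_of_dvd (LA_pos _ _ _) ?_
      exact Finset.dvd_prod_of_mem _ (mem_range.2 ht)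
    unfold mask Bd
    split_ifs <;> omega

end Pool.Agent.Helper45.T5
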